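import Pool.Agent.Results.MP_0c20fd_an.NotSmooth

/-! The 2-summing norm is smooth at invertible operators on strictly convex spaces. -/

set_option autoImplicit false

namespace Pool.Agent.Lib.MP_0c20fd_an

open Pool.Agent.Results.MP_0c20fd_an.NotSmooth Filter Topology RCLike
open scoped ComplexConjugate

variable {𝕜 : Type} [RCLike 𝕜] {X : Type} [NormedAddCommGroup X] [NormedSpace 𝕜 X] {m : ℕ}

theorem sq_nn {Y : Type} [NormedAddCommGroup Y] (y : Fin m → Y) : 0 ≤ ∑ i, ‖y i‖ ^ 2 :=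
  Finset.sum_nonneg fun _ _ => by positivity

theorem weak_le {x : Fin m → X} {c : ℝ}
    (h : ∀ f : X →L[𝕜] 𝕜, ‖f‖ ≤ 1 → ∑ i, ‖f (x i)‖ ^ 2 ≤ c) : weakL2 𝕜 x ≤ √c :=
  csSup_le ⟨_, 0, by simp, rfl⟩ (by
    rintro _ ⟨f, hf, rfl⟩
    exact Real.sqrt_le_sqrt (h f hf))

theorem sum_le_weak (x : Fin m → X) (f : X →L[𝕜] 𝕜) :
    ∑ i, ‖f (x i)‖ ^ 2 ≤ ‖f‖ ^ 2 * weakL2 𝕜 x ^ 2 := by
  rcases (norm_nonneg f).eq_or_lt with h | h
  · simp [norm_eq_zero.1 h.symm]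
  have h1 := (Real.sqrt_le_left (weak_nonneg x)).1 (le_weak x (((‖f‖⁻¹ : ℝ) : 𝕜) • f) (by
    rw [norm_smul, norm_ofReal, abs_of_pos (inv_pos.2 h), inv_mul_cancel₀ h.ne']))
  simp only [smul_apply, norm_smul, norm_ofReal, mul_pow, sq_abs,
    ← Finset.mul_sum, inv_pow] at h1
  rwa [inv_mul_le_iff₀ (by positivity)] at h1

theorem pi2_le' {T : X →ₗ[𝕜] X} {C : ℝ} (h0 : 0 ≤ C) (h : ∀ (m : ℕ) (x : Fin m → X),
    √(∑ i, ‖T (x i)‖ ^ 2) ≤ C * weakL2 𝕜 x) : pi2 T ≤ C :=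
  csInf_le ⟨0, fun _ hC => hC.1⟩ ⟨h0, h⟩

theorem pi2_nn (T : X →ₗ[𝕜] X) : 0 ≤ pi2 T := Real.sInf_nonneg fun _ h => h.1

theorem pi2_sq_le {T : X →ₗ[𝕜] X} {c : ℝ} (h : ∀ (m : ℕ) (x : Fin m → X), weakL2 𝕜 x ≤ 1 →
    ∑ i, ‖T (x i)‖ ^ 2 ≤ c) : pi2 T ^ 2 ≤ c := by
  have hc : 0 ≤ c := by
    simpa using h 0 Fin.elim0 ((weak_le (c := 1) fun f _ => by simp).trans_eq Real.sqrt_one)
  refine (Real.le_sqrt (pi2_nn T) hc).1 (pi2_le' (Real.sqrt_nonneg c) fun m x => ?_)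
  have hw := weak_nonneg (𝕜 := 𝕜) x
  refine ge_of_tendsto (x := 𝓝[>] weakL2 𝕜 x) (f := fun l => √c * l)
    ((continuous_const.mul continuous_id).continuousWithinAt.tendsto)
    (eventually_nhdsWithin_of_forall fun l (hl : weakL2 𝕜 x < l) => ?_)
  have hl0 : 0 < l := hw.trans_lt hl
  have h1 := h m (fun i => ((l⁻¹ : ℝ) : 𝕜) • x i) ((weak_le (c := 1) fun f hf => by
    simp only [map_smul, norm_smul, norm_ofReal, mul_pow, sq_abs, ← Finset.mul_sum, inv_pow]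
    rw [inv_mul_le_iff₀ (by positivity), mul_one]
    refine (sum_le_weak x f).trans ?_
    rw [← one_mul (l ^ 2)]
    gcongr
    exact pow_le_one₀ (norm_nonneg f) hf).trans_eq Real.sqrt_one)
  simp only [map_smul, norm_smul, norm_ofReal, mul_pow, sq_abs, ← Finset.mul_sum, inv_pow] at h1
  rw [inv_mul_le_iff₀ (by positivity)] at h1
  refine (Real.sqrt_le_left (by positivity)).2 ?_
  rwa [mul_pow, Real.sq_sqrt hc, mul_comm]

/-- The vector attached to a family and a functional. -/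
noncomputable def vec (x : Fin m → X) (f : X →L[𝕜] 𝕜) : X := ∑ i, conj (f (x i)) • x i

theorem vec_app (x : Fin m → X) (f g : X →L[𝕜] 𝕜) :
    g (vec x f) = ∑ i, g (x i) * conj (f (x i)) := by
  simp only [vec, map_sum, map_smul, smul_eq_mul, mul_comm]

theorem vec_self (x : Fin m → X) (f : X →L[𝕜] 𝕜) : re (f (vec x f)) = ∑ i, ‖f (x i)‖ ^ 2 := by
  simp only [vec_app, mul_conj, map_sum, ← ofReal_pow, ofReal_re]

theorem sum_le_one {x : Fin m → X} (hx : weakL2 𝕜 x ≤ 1) (f : X →L[𝕜] 𝕜) :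
    ∑ i, ‖f (x i)‖ ^ 2 ≤ ‖f‖ ^ 2 :=
  (sum_le_weak x f).trans (mul_le_of_le_one_right (by positivity) (pow_le_one₀ (weak_nonneg x) hx))

theorem vec_norm {x : Fin m → X} (hx : weakL2 𝕜 x ≤ 1) {f : X →L[𝕜] 𝕜} (hf : ‖f‖ ≤ 1) :
    ‖vec x f‖ ≤ 1 := by
  refine NormedSpace.norm_le_dual_bound 𝕜 _ zero_le_one fun g => ?_
  rw [vec_app, one_mul]
  refine (norm_sum_le _ _).trans (abs_le_of_sq_le_sq' ?_ (norm_nonneg g)).2
  simp only [norm_mul, norm_conj]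
  refine (Finset.sum_mul_sq_le_sq_mul_sq _ _ _).trans ?_
  rw [← mul_one (‖g‖ ^ 2)]
  exact mul_le_mul (sum_le_one hx g) ((sum_le_one hx f).trans (pow_le_one₀ (norm_nonneg f) hf))
    (sq_nn _) (by positivity)

theorem expand {x : Fin m → X} (hx : weakL2 𝕜 x ≤ 1) {f : X →L[𝕜] 𝕜} (hf : ‖f‖ ≤ 1)
    (A : X →L[𝕜] X) (s : ℝ) : ∑ i, ‖f (x i + (s : 𝕜) • A (x i))‖ ^ 2 ≤
      re (f (vec x f)) + 2 * s * re (f (A (vec x f))) + s ^ 2 * ‖A‖ ^ 2 := by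
  have h1 : ∑ i, ‖f (A (x i))‖ ^ 2 ≤ ‖A‖ ^ 2 := (sum_le_one hx (f.comp A)).trans (by
    gcongr
    exact (f.opNorm_comp_le A).trans (mul_le_of_le_one_left (norm_nonneg A) hf))
  have h2 := vec_app x f (f.comp A)
  rw [ContinuousLinearMap.comp_apply] at h2
  rw [vec_self, h2, map_sum, Finset.mul_sum]
  refine le_trans (le_of_eq ?_) (add_le_add_right (mul_le_mul_of_nonneg_left h1 (sq_nonneg s)) _)
  rw [Finset.mul_sum, ← Finset.sum_add_distrib, ← Finset.sum_add_distrib]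
  refine Finset.sum_congr rfl fun i _ => ?_
  rw [map_add, map_smul, norm_add_sq (𝕜 := 𝕜), inner_smul_right, norm_smul, norm_ofReal, mul_pow,
    sq_abs, re_ofReal_mul, inner_apply, ContinuousLinearMap.comp_apply, mul_assoc]

variable [FiniteDimensional 𝕜 X]

theorem summing (T : X →ₗ[𝕜] X) : ∃ C : ℝ, 0 ≤ C ∧ ∀ (m : ℕ) (x : Fin m → X),
    √(∑ i, ‖T (x i)‖ ^ 2) ≤ C * weakL2 𝕜 x := by
  let b := Module.finBasis 𝕜 X
  let c := fun k => LinearMap.toContinuousLinearMap (b.coord k)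
  refine ⟨√((∑ k, ‖T (b k)‖ ^ 2) * ∑ k, ‖c k‖ ^ 2), Real.sqrt_nonneg _, fun m x => ?_⟩
  refine (Real.sqrt_le_left (mul_nonneg (Real.sqrt_nonneg _) (weak_nonneg x))).2 ?_
  rw [mul_pow, Real.sq_sqrt (mul_nonneg (sq_nn _) (sq_nn _)), mul_assoc, Finset.sum_mul _ _ (_ ^ 2)]
  refine le_trans ?_ (mul_le_mul_of_nonneg_left (Finset.sum_le_sum fun k _ => sum_le_weak x (c k))
    (sq_nn _))
  rw [Finset.sum_comm, Finset.mul_sum]
  refine Finset.sum_le_sum fun i _ => le_trans ?_ (Finset.sum_mul_sq_le_sq_mul_sq _ _ _)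
  gcongr
  conv_lhs => rw [← b.sum_repr (x i), map_sum]
  refine (norm_sum_le _ _).trans (Finset.sum_le_sum fun k _ => le_of_eq ?_)
  rw [map_smul, norm_smul, mul_comm]
  rfl

theorem pi2_spec (T : X →ₗ[𝕜] X) (x : Fin m → X) :
    √(∑ i, ‖T (x i)‖ ^ 2) ≤ pi2 T * weakL2 𝕜 x := by
  obtain ⟨C, hC⟩ := summing T
  rcases (weak_nonneg (𝕜 := 𝕜) x).eq_or_lt with h | h
  · have h1 := hC.2 m x
    rwa [← h, mul_zero] at h1 ⊢
  · exact (div_le_iff₀ h).1 (le_csInf ⟨C, hC⟩ fun D hD => (div_le_iff₀ h).2 (hD.2 m x))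

/-- The 2-summing norm as a seminorm. -/
noncomputable def sn (𝕜 : Type) [RCLike 𝕜] (X : Type) [NormedAddCommGroup X] [NormedSpace 𝕜 X]
    [FiniteDimensional 𝕜 X] : Seminorm 𝕜 (X →ₗ[𝕜] X) :=
  Seminorm.ofSMulLE pi2 (le_antisymm (pi2_le' le_rfl fun _ _ => by simp) (pi2_nn _))
    (fun S T => pi2_le' (add_nonneg (pi2_nn S) (pi2_nn T)) fun m x => by
      have h := norm_add_le (WithLp.toLp 2 fun i => S (x i) : PiLp 2 fun _ : Fin m => X)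
        (WithLp.toLp 2 fun i => T (x i))
      simp only [PiLp.norm_eq_of_L2, PiLp.add_apply] at h
      rw [add_mul]
      exact h.trans (add_le_add (pi2_spec S x) (pi2_spec T x)))
    fun a T => pi2_le' (mul_nonneg (norm_nonneg a) (pi2_nn T)) fun m x => by
      simp only [LinearMap.smul_apply, norm_smul, mul_pow, ← Finset.mul_sum]
      rw [Real.sqrt_mul (sq_nonneg _), Real.sqrt_sq (norm_nonneg a), mul_assoc]
      exact mul_le_mul_of_nonneg_left (pi2_spec T x) (norm_nonneg a)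

theorem pi2_smul (a : 𝕜) (T : X →ₗ[𝕜] X) : pi2 (a • T) = ‖a‖ * pi2 T := map_smul_eq_mul (sn 𝕜 X) a T

theorem pi2_pos {T : X →ₗ[𝕜] X} (hT : T ≠ 0) : 0 < pi2 T := by
  refine (pi2_nn T).lt_of_ne fun h => hT (LinearMap.ext fun v => ?_)
  have h1 := pi2_spec T fun _ : Fin 1 => v
  simpa [← h] using h1

theorem dual_iff {T : X →ₗ[𝕜] X} (hT : T ≠ 0) {φ : (X →ₗ[𝕜] X) →ₗ[𝕜] 𝕜}
    (h : φ T = (pi2 T : ℝ)) : dualNorm φ = 1 ↔ ∀ S, ‖φ S‖ ≤ pi2 S := by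
  have key : ∀ S : X →ₗ[𝕜] X, S ≠ 0 → pi2 ((((pi2 S)⁻¹ : ℝ) : 𝕜) • S) ≤ 1 := fun S hS => by
    rw [pi2_smul, norm_ofReal, abs_of_pos (inv_pos.2 (pi2_pos hS)),
      inv_mul_cancel₀ (pi2_pos hS).ne']
  refine ⟨fun h1 S => ?_, fun h1 => IsGreatest.csSup_eq ⟨⟨_, key T hT, ?_⟩, ?_⟩⟩
  · rcases eq_or_ne S 0 with rfl | hS
    · simpa using pi2_nn (0 : X →ₗ[𝕜] X)
    have hb : BddAbove {r : ℝ | ∃ S : X →ₗ[𝕜] X, pi2 S ≤ 1 ∧ r = ‖φ S‖} := by
      by_contra hb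
      exact zero_ne_one ((Real.sSup_of_not_bddAbove hb).symm.trans h1)
    have h2 := (le_csSup hb ⟨_, key S hS, rfl⟩).trans_eq h1
    rwa [map_smul, norm_smul, norm_ofReal, abs_of_pos (inv_pos.2 (pi2_pos hS)),
      inv_mul_le_iff₀ (pi2_pos hS), mul_one] at h2
  · rw [map_smul, h, smul_eq_mul, ← ofReal_mul, inv_mul_cancel₀ (pi2_pos hT).ne', ofReal_one,
      norm_one]
  · rintro _ ⟨S, hS, rfl⟩
    exact (h1 S).trans hS

theorem exists_norming {T : X →ₗ[𝕜] X} (hT : T ≠ 0) : ∃ φ : (X →ₗ[𝕜] X) →ₗ[𝕜] 𝕜,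
    φ T = (pi2 T : ℝ) ∧ ∀ S, ‖φ S‖ ≤ pi2 S := by
  obtain ⟨g, h1, h2⟩ := Module.Dual.exists_extension_of_le_seminorm (𝕜 ∙ T)
    (((pi2 T : ℝ) : 𝕜) • (LinearEquiv.coord 𝕜 _ T hT).toLinearMap) (p := sn 𝕜 X) fun y => by
      rw [← LinearEquiv.coord_apply_smul 𝕜 _ T hT y, map_smul_eq_mul, LinearMap.smul_apply,
        norm_smul, norm_ofReal, abs_of_nonneg (pi2_nn T), mul_comm]
      rfl
  refine ⟨g, (h1 ⟨T, Submodule.mem_span_singleton_self T⟩).trans ?_, h2⟩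
  rw [LinearMap.smul_apply, LinearEquiv.coe_coe, LinearEquiv.coord_self, smul_eq_mul, mul_one]

variable (hX : ∀ x y : X, ‖x‖ = 1 → ‖y‖ = 1 → x ≠ y → ‖x + y‖ < 2)
include hX

include 𝕜 in
theorem unif {ε : ℝ} (hε : 0 < ε) : ∃ δ : ℝ, 0 < δ ∧ ∀ u v : X, ‖u‖ ≤ 1 → ‖v‖ ≤ 1 →
    ε ≤ ‖u - v‖ → δ ≤ 2 - ‖u + v‖ := by
  have := FiniteDimensional.proper_rclike 𝕜 X
  obtain ⟨δ, h0, h⟩ := (((isCompact_closedBall (0 : X) 1).prod
    (isCompact_closedBall (0 : X) 1)).inter_right (t := {p | ε ≤ ‖p.1 - p.2‖})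
      (isClosed_le continuous_const (by fun_prop))).exists_forall_le'
    (f := fun p => 2 - ‖p.1 + p.2‖) (a := 0) (by fun_prop) fun p ⟨⟨h1, h2⟩, h3⟩ => by
      rw [mem_closedBall_zero_iff] at h1 h2
      have h4 := norm_add_le p.1 p.2
      rcases h1.eq_or_lt with h1 | h1
      · rcases h2.eq_or_lt with h2 | h2
        · exact sub_pos.2 (hX _ _ h1 h2 fun e => by
            simp only [Set.mem_ofPred_eq, e, sub_self, norm_zero] at h3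
            exact h3.not_gt hε)
        · linarith
      · linarith
  exact ⟨δ, h0, fun u v hu hv h1 =>
    h (u, v) ⟨⟨mem_closedBall_zero_iff.2 hu, mem_closedBall_zero_iff.2 hv⟩, h1⟩⟩

theorem key (A : X →L[𝕜] X) {η : ℝ} (hη : 0 < η) : ∃ t : ℝ, 0 < t ∧ ∀ (m m' : ℕ) (x : Fin m → X)
    (x' : Fin m' → X), weakL2 𝕜 x ≤ 1 → weakL2 𝕜 x' ≤ 1 → ∀ f : X →L[𝕜] 𝕜, ‖f‖ ≤ 1 →
      ∑ i, ‖f (x i + (t : 𝕜) • A (x i))‖ ^ 2 + ∑ i, ‖f (x' i + ((-t : ℝ) : 𝕜) • A (x' i))‖ ^ 2 ≤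
        2 + η * t := by
  have hA := norm_nonneg A
  obtain ⟨δ, hδ, h⟩ := unif (𝕜 := 𝕜) hX (ε := η / (4 * (‖A‖ + 1))) (by positivity)
  obtain ⟨t, ⟨h1, h2⟩, ht⟩ : ∃ t : ℝ, (4 * ‖A‖ * t < δ ∧ 4 * ‖A‖ ^ 2 * t < η) ∧ 0 < t := by
    have e : ∀ a b : ℝ, 0 < b → ∀ᶠ t in 𝓝[>] (0 : ℝ), a * t < b := fun a b hb =>
      mem_nhdsWithin_of_mem_nhds ((continuous_const.mul continuous_id).continuousAt.eventually_lt
        continuousAt_const (by simpa using hb))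
    exact (((e _ _ hδ).and (e _ _ hη)).and self_mem_nhdsWithin).exists
  refine ⟨t, ht, fun m m' x x' hx hx' f hf => ?_⟩
  have e1 := expand hx hf A t
  have e2 := expand hx' hf A (-t)
  have n1 := vec_norm hx hf
  have n2 := vec_norm hx' hf
  generalize vec x f = u at e1 n1
  generalize vec x' f = v at e2 n2
  have hf' : ∀ w, re (f w) ≤ ‖w‖ := fun w => (re_le_norm _).trans
    ((f.le_opNorm w).trans (mul_le_of_le_one_left (norm_nonneg w) hf))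
  have b1 := hf' (u + v)
  have b2 := (hf' (A (u - v))).trans (A.le_opNorm _)
  rw [map_add, map_add] at b1
  rw [map_sub, map_sub, map_sub] at b2
  have b3 : 4 * ‖A‖ ^ 2 * t * t ≤ η * t := by gcongr
  have b4 := mul_le_mul_of_nonneg_left b2 ht.le
  rcases le_total (η / (4 * (‖A‖ + 1))) ‖u - v‖ with h3 | h3
  · have b5 := h u v n1 n2 h3
    have b6 : t * (‖A‖ * ‖u - v‖) ≤ t * (‖A‖ * 2) := by
      gcongr
      linarith [norm_sub_le u v]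
    nlinarith
  · rw [le_div_iff₀ (by positivity)] at h3
    have b5 := norm_add_le u v
    have b6 : t * (‖A‖ * ‖u - v‖) ≤ t * (η / 4) := by
      gcongr
      nlinarith [norm_nonneg (u - v)]
    nlinarith

theorem two_sided (T : X →ₗ[𝕜] X) (A : X →L[𝕜] X) {η : ℝ} (hη : 0 < η) : ∃ t : ℝ, 0 < t ∧
    pi2 (T + (t : 𝕜) • T ∘ₗ A.toLinearMap) + pi2 (T + ((-t : ℝ) : 𝕜) • T ∘ₗ A.toLinearMap) ≤
      pi2 T * (2 + η * t) := by
  obtain ⟨t, ht, h⟩ := key hX A hη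
  have h0 := pi2_nn T
  refine ⟨t, ht, (abs_le_of_sq_le_sq' ?_ (by positivity)).2⟩
  have h1 : pi2 (T + ((-t : ℝ) : 𝕜) • T ∘ₗ A.toLinearMap) ^ 2 ≤
      pi2 T ^ 2 * (2 + η * t) - pi2 (T + (t : 𝕜) • T ∘ₗ A.toLinearMap) ^ 2 :=
    pi2_sq_le fun m' x' hx' => le_sub_comm.1 (pi2_sq_le fun m x hx => le_sub_iff_add_le.2 (by
      let y := Fin.append (fun i => x i + (t : 𝕜) • A (x i)) fun i => x' i + ((-t : ℝ) : 𝕜) • A (x' i)
      have h2 : weakL2 𝕜 y ≤ √(2 + η * t) := weak_le fun f hf => by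
        simpa only [Fin.sum_univ_add, y, Fin.append_left, Fin.append_right] using
          h m m' x x' hx hx' f hf
      have h3 := (Real.sqrt_le_left (by positivity)).1
        ((pi2_spec T y).trans (mul_le_mul_of_nonneg_left h2 h0))
      rw [mul_pow, Real.sq_sqrt (by positivity)] at h3
      simpa only [Fin.sum_univ_add, y, Fin.append_left, Fin.append_right, map_add, map_smul,
        LinearMap.add_apply, LinearMap.smul_apply, LinearMap.comp_apply,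
        ContinuousLinearMap.coe_coe] using h3))
  generalize pi2 (T + ((-t : ℝ) : 𝕜) • T ∘ₗ A.toLinearMap) = p at h1 ⊢
  generalize pi2 (T + (t : 𝕜) • T ∘ₗ A.toLinearMap) = q at h1 ⊢
  have h2 : 0 ≤ pi2 T ^ 2 * (η * t) := by positivity
  have h3 : 0 ≤ pi2 T ^ 2 * (η * t) ^ 2 := by positivity
  nlinarith [sq_nonneg (p - q)]

theorem unique {T : X →ₗ[𝕜] X} (hT : Function.Bijective T) {φ ψ : (X →ₗ[𝕜] X) →ₗ[𝕜] 𝕜}
    (h1 : ∀ S, ‖φ S‖ ≤ pi2 S) (h2 : φ T = (pi2 T : ℝ)) (h3 : ∀ S, ‖ψ S‖ ≤ pi2 S)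
    (h4 : ψ T = (pi2 T : ℝ)) : φ = ψ := by
  have h5 : ∀ S, re (φ S - ψ S) ≤ 0 := fun S => by
    let A := LinearMap.toContinuousLinearMap ((LinearEquiv.ofBijective T hT).symm.toLinearMap ∘ₗ S)
    have e : T ∘ₗ A.toLinearMap = S :=
      LinearMap.ext fun v => (LinearEquiv.ofBijective T hT).apply_symm_apply (S v)
    have h0 := pi2_nn T
    refine le_of_forall_pos_le_add fun ε hε => ?_
    obtain ⟨t, ht, h⟩ := two_sided hX T A (η := ε / (pi2 T + 1)) (by positivity)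
    rw [e] at h
    have a1 := (re_le_norm _).trans (h1 (T + (t : 𝕜) • S))
    have a2 := (re_le_norm _).trans (h3 (T + ((-t : ℝ) : 𝕜) • S))
    rw [map_add, map_smul, map_add, smul_eq_mul, re_ofReal_mul] at a1 a2
    rw [h2, ofReal_re] at a1
    rw [h4, ofReal_re] at a2
    have a3 : pi2 T * (ε / (pi2 T + 1)) ≤ ε := by
      rw [← mul_div_assoc, div_le_iff₀ (by positivity)]
      nlinarith
    rw [map_sub, zero_add]
    refine le_trans (le_of_mul_le_mul_right ?_ ht) a3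
    nlinarith
  refine LinearMap.ext fun S => sub_eq_zero.1 (norm_eq_zero.1 ?_)
  have h6 := h5 (conj (φ S - ψ S) • S)
  rw [map_smul, map_smul, ← smul_sub, smul_eq_mul, RCLike.conj_mul, ← ofReal_pow, ofReal_re] at h6
  exact pow_eq_zero_iff two_ne_zero |>.1 (le_antisymm h6 (sq_nonneg _))

end Pool.Agent.Lib.MP_0c20fd_an
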